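import Pool.Agent.Helper96.SE.Stmts
import Pool.Agent.Helper58.Grid.Sound
import Pool.Agent.Helper74.BC.SND

set_option autoImplicit false

/-! Module SND: tours give satisfying assignments which respect the tiles. -/

namespace Pool.Agent.Helper96.SE

open Pool.Agent.Helper52.Grid
open Pool.Agent.Helper58.Grid

theorem snd_row {s : List Sub} {M : ℕ} {T : ℕ → Bool}
    (hs : ∀ k i d, sg s k = some (i, d) → i < 2 * M + 1) (hT : VT M T) {i k : ℕ}
    (h : IsBlk s T i k) : i < 2 * M + 1 := by
  rcases h with ⟨d, hd⟩ | ⟨_, hr⟩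
  · exact hs k i d hd
  · unfold rk at hr
    by_cases h1 : T i = true
    · have := hT.lt i h1
      omega
    · rw [if_neg h1] at hr
      by_cases h2 : i ≠ 0 ∧ T (i - 1) = true
      · have := hT.lt (i - 1) h2.2
        omega
      · rw [if_neg h2] at hr
        exact absurd rfl hr

theorem snd_le {s : List Sub} {T : ℕ → Bool} {i k : ℕ} (h : IsBlk s T i k) : k ≤ s.length := by
  rcases h with ⟨d, hd⟩ | ⟨hk, _⟩
  · exact (lt_of_sg (by rw [hd]; simp)).le
  · exact hk.le

theorem snd_old {s : List Sub} {T : ℕ → Bool} {i k : ℕ} (h : IsBlk s T i k)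
    (hk : k < s.length) : ∃ d, sg s k = some (i, d) := by
  rcases h with h | ⟨hk', _⟩
  · exact h
  · omega

/-- reading the states -/
theorem snd_reads {s : List Sub} {T : ℕ → Bool} {vU : ℕ → ℕ → Bool}
    (hX : ∀ i k k', k < k' → IsBlk s T i k → IsBlk s T i k' →
      (∀ k'', k < k'' → k'' < k' → ¬ IsBlk s T i k'') →
      sigma vU i k ≠ sigma vU i k') :
    ∃ a : ℕ → Bool, ∀ i k, IsBlk s T i k →
      sigma vU i k = (a i == decide (cnt s i k % 2 = 0)) := by
  classical
  let P : ℕ → ℕ → Prop := fun i k => IsBlk s T i k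
  refine ⟨fun i => if h : ∃ k, P i k then sigma vU i (Nat.find h) else false, ?_⟩
  intro i k
  induction k using Nat.strong_induction_on with
  | _ k ih =>
  intro hd
  have hP : ∃ k, P i k := ⟨k, hd⟩
  simp only [dif_pos hP]
  rcases Nat.eq_or_lt_of_le (Nat.find_min' hP hd) with h | h
  · have h0 : cnt s i k = 0 := by
      have h1 := cnt_const (s := s) (i := i) (Nat.zero_le k) (by
        intro k'' d'' _ h2 h3
        have := Nat.find_min' hP (Or.inl ⟨d'', h3⟩)
        omega)
      rw [h1]
      simp [cnt]
    rw [h, h0]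
    simp
  · -- the previous block
    have hex : ∃ k', k' < k ∧ P i k' ∧ ∀ k'', k' < k'' → k'' < k → ¬ P i k'' := by
      by_contra hcon
      have hno : ∀ j, j ≤ k → ∀ k', k - j ≤ k' → k' < k → ¬ P i k' := by
        intro j
        induction j with
        | zero => intro _ k' h1 h2; omega
        | succ j ihj =>
          intro hj k' h1 h2 h3
          apply hcon
          rcases Nat.eq_or_lt_of_le h1 with h4 | h4
          · refine ⟨k', h2, h3, ?_⟩
            intro k'' h5 h6 h7
            exact ihj (by omega) k'' (by omega) h6 h7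
          · exact absurd h3 (ihj (by omega) k' (by omega) h2)
      exact hno k le_rfl (Nat.find hP) (by omega) h (Nat.find_spec hP)
    obtain ⟨k', hk', hb', hb⟩ := hex
    have h1 := ih k' hk' hb'
    simp only [dif_pos hP] at h1
    have h2 := hX i k' k hk' hb' hd hb
    have hlt : k' < s.length := lt_of_lt_of_le hk' (snd_le hd)
    obtain ⟨d', hd'⟩ := snd_old hb' hlt
    have h3 : cnt s i k = cnt s i k' + 1 := by
      rw [cnt_const (s := s) (i := i) (k := k' + 1) (k' := k) (by omega) (by
        intro k'' d'' h4 h5 h6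
        exact hb k'' (by omega) h5 (Or.inl ⟨d'', h6⟩)), cnt_succ_self hd']
    rw [h3]
    have h4 : decide ((cnt s i k' + 1) % 2 = 0) = !decide (cnt s i k' % 2 = 0) := by
      rcases Nat.mod_two_eq_zero_or_one (cnt s i k') with h | h
      · have : (cnt s i k' + 1) % 2 = 1 := by omega
        simp [h, this]
      · have : (cnt s i k' + 1) % 2 = 0 := by omega
        simp [h, this]
    rw [h4]
    rw [h1] at h2
    generalize sigma vU i (Nat.find hP) = x at *
    generalize decide (cnt s i k' % 2 = 0) = y at *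
    generalize sigma vU i k = z at *
    revert h2
    cases x <;> cases y <;> cases z <;> simp

/-- the clauses are satisfied -/
theorem snd_sat (hC' : ST_CLS) (φ : CNF) (M : ℕ) (T : ℕ → Bool) (hU vU : ℕ → ℕ → Bool)
    (hs : ∀ k i d, sg (subs φ) k = some (i, d) → i < 2 * M + 1)
    (U : Use (hN (subs φ) M T) (vN (subs φ) M T) hU vU) (a : ℕ → Bool)
    (ha : ∀ i k, IsBlk (subs φ) T i k →
      sigma vU i k = (a i == decide (cnt (subs φ) i k % 2 = 0))) : φ.Sat a := by
  intro u hc
  obtain ⟨φ1, φ2, rfl⟩ := List.append_of_mem hc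
  -- the position of the clause
  have hsub : subs (φ1 ++ u :: φ2) = subs φ1 ++ (none :: (body u ++ subs φ2)) := by
    rw [subs_append, subs_cons]
  have e1 : sg (subs (φ1 ++ u :: φ2)) (subs φ1).length = none := by
    rw [hsub]
    have := sg_append_right (subs φ1) (none :: (body u ++ subs φ2)) 0
    rw [Nat.add_zero] at this
    rw [this]
    rfl
  have e2 : ∀ t, t < (body u).length →
      sg (subs (φ1 ++ u :: φ2)) ((subs φ1).length + (t + 1)) = sg (body u) t := by
    intro t ht
    rw [hsub, sg_append_right]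
    exact sg_append_left (body u) (subs φ2) ht
  have e3 : sg (subs (φ1 ++ u :: φ2)) ((subs φ1).length + ((body u).length + 1)) = none := by
    rw [hsub, sg_append_right]
    have h1 : sg (none :: (body u ++ subs φ2)) ((body u).length + 1) =
        sg (body u ++ subs φ2) ((body u).length + 0) := rfl
    rw [h1, sg_append_right, sg_subs_zero]
  obtain ⟨l, i, h1, h2, h3, h4⟩ := hC' (subs (φ1 ++ u :: φ2)) M T hU vU hs U (subs φ1).length
    (body u).length e1 (by rw [hsub]; simp) (by
      intro l h1 h2
      have := e2 (l - (subs φ1).length - 1) (by omega)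
      rw [show (subs φ1).length + (l - (subs φ1).length - 1 + 1) = l by omega] at this
      rw [this]
      exact sg_body_ne u (by omega)) (by rw [Nat.add_assoc]; exact e3)
  -- the literal
  obtain ⟨t, rfl⟩ : ∃ t, l = (subs φ1).length + (t + 1) :=
    ⟨l - (subs φ1).length - 1, by omega⟩
  have ht : t < 2 * u.length := by rw [← body_length]; omega
  have hm : t / 2 < u.length := by omega
  set m := t / 2 with hmdef
  have hc1 : u = u.take m ++ u[m] :: u.drop (m + 1) := by
    rw [← List.drop_eq_getElem_cons hm, List.take_append_drop]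
  set q := u[m] with hq
  set P : List Sub := subs φ1 ++ (none :: body (u.take m)) with hPdef
  have hs2 : subs (φ1 ++ u :: φ2) = P ++ (some (q.1, q.2) :: some (q.1, !q.2) ::
      (body (u.drop (m + 1)) ++ subs φ2)) := by
    rw [hsub]
    conv_lhs => rw [hc1]
    rw [body_append, body_cons, hPdef]
    simp
  have hPl : P.length = (subs φ1).length + (2 * m + 1) := by
    rw [hPdef, List.length_append, List.length_cons, body_length, List.length_take]
    congr 2
    rw [Nat.min_eq_left hm.le]
  have hcP : cn i P % 2 = 0 := by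
    rw [hPdef, cn_append, cn_none, Nat.add_mod, cn_subs, cn_body]
  have hr := ha i _ (Or.inl ⟨true, h3⟩)
  rw [h4, cnt_eq] at hr
  refine ⟨q, List.getElem_mem hm, ?_⟩
  rcases Nat.mod_two_eq_zero_or_one t with h0 | h0
  · have hl : (subs φ1).length + (t + 1) = P.length + 0 := by rw [hPl]; omega
    rw [hl, hs2, sg_append_right] at h3
    rw [hl, hs2, Nat.add_zero, List.take_left, hcP] at hr
    have h5 : some (q.1, q.2) = some (i, true) := h3
    simp only [Option.some.injEq, Prod.mk.injEq] at h5
    rw [h5.1, h5.2]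
    simpa using hr
  · have hl : (subs φ1).length + (t + 1) = P.length + 1 := by rw [hPl]; omega
    rw [hl, hs2, sg_append_right] at h3
    have h5 : some (q.1, !q.2) = some (i, true) := h3
    simp only [Option.some.injEq, Prod.mk.injEq, Bool.not_eq_true'] at h5
    have h6 : cn i (List.take (P.length + 1) (P ++ (some (q.1, q.2) :: some (q.1, !q.2) ::
      (body (u.drop (m + 1)) ++ subs φ2)))) % 2 = 1 := by
      rw [List.take_length_add_append, cn_append]
      have : cn i (List.take 1 (some (q.1, q.2) :: some (q.1, !q.2) ::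
        (body (u.drop (m + 1)) ++ subs φ2))) = 1 := by
        simp [cn, h5.1]
      omega
    rw [hl, hs2, h6] at hr
    rw [h5.1, h5.2]
    simpa using hr

theorem st_SND (h1 : ST_XOR) (h2 : ST_CLS) (h3 : ST_NAN) (h4 : ST_BOX) : ST_SND := by
  intro φ M T hφ hVT hTour
  obtain ⟨L, hL⟩ := hTour
  have h3L : 3 ≤ L.length := by
    have h1 : [((1 : ℕ), (3 : ℕ)), (2, 3), (3, 3)] ⊆ L := by
      intro a ha
      rw [hL.mem]
      left
      simp only [List.mem_cons, List.not_mem_nil, or_false] at ha
      rcases ha with rfl | rfl | rfl <;>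
        (show hN (subs φ) M T _ _ = 0
         rw [hN_old (by omega)]
         simp [hC, Pool.Agent.Helper52.Grid.hT])
    have h2 : ([((1 : ℕ), (3 : ℕ)), (2, 3), (3, 3)] : List Pt).Nodup := by decide
    exact (List.subperm_of_subset h2 h1).length_le
  obtain ⟨hU, vU, U, -⟩ := Pool.Agent.Helper17.Etsp.s_use _ _ _ L
    (h4 (subs φ) M T) hL h3L
  have hs : ∀ k i d, sg (subs φ) k = some (i, d) → i < 2 * M + 1 := by
    intro k i d h
    obtain ⟨u, hc, l, hl, h1⟩ := mem_subs (sg_mem h)
    rw [← h1]
    exact hφ u hc l hl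
  obtain ⟨a, ha⟩ := snd_reads (s := subs φ) (T := T) (vU := vU) (fun i k k' hk hb hb' hno =>
    h1 (subs φ) M T hU vU hs hVT U i k k' (snd_row hs hVT hb) hk hb hb' hno)
  refine ⟨a, snd_sat h2 φ M T hU vU hs U a ha, ?_⟩
  rintro i hi ⟨ha1, ha2⟩
  have hcnt : ∀ j, cnt (subs φ) j (subs φ).length % 2 = 0 := by
    intro j
    rw [cnt_eq, List.take_length]
    exact cn_subs j φ
  have hb1 : IsBlk (subs φ) T i (subs φ).length := by
    right
    refine ⟨rfl, ?_⟩
    unfold rk
    rw [if_pos hi]
    exact fun h => RK.noConfusion h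
  have hb2 : IsBlk (subs φ) T (i + 1) (subs φ).length := by
    right
    refine ⟨rfl, ?_⟩
    unfold rk
    have h5 : ¬ T (i + 1) = true := by
      rw [hVT.sep i hi]
      decide
    rw [if_neg h5, if_pos ⟨Nat.succ_ne_zero i, by rw [Nat.add_sub_cancel]; exact hi⟩]
    exact fun h => RK.noConfusion h
  apply h3 (subs φ) M T hU vU hVT U i hi
  constructor
  · rw [ha i _ hb1, hcnt i, ha1]
    rfl
  · rw [ha (i + 1) _ hb2, hcnt (i + 1), ha2]
    rfl

end Pool.Agent.Helper96.SE
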